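import Pool.Agent.Mg.F2e2931a.G3d6fde

open Set Ordinal Pool.Agent.MP_2e2931_gt

universe u

namespace Pool.Agent.Results.MP_2e2931_gt.AdInterval

theorem result (X : Type u) [TopologicalSpace X] (hX : KAnalytic X)
    (K : Set X) (hK : IsCompact K) (hiso : ∀ x ∉ K, IsOpen {x})
    (c : Cpt X) (hc : IsDiscrete (range c.e)ᶜ)
    (htop : ω₁ ∈ Cplx X → ∀ γ < ω₁, ∃ Z ⊆ (range c.e)ᶜ, ∃ β < ω₁,
      (∃ B, FB c.Y β B ∧ range c.e ⊆ B ∧ Disjoint B Z) ∧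
        ¬ ∃ B, FB c.Y γ B ∧ range c.e ⊆ B ∧ Disjoint B Z) :
    ∃ α β, Cplx X = Icc α β := by
  by_cases h1 : ω₁ ∈ Cplx X
  swap
  · exact ad_interval hK hiso hX hc h1
  obtain ⟨α, hα, hm⟩ := wellFounded_lt.has_min (Cplx X) ⟨_, h1⟩
  have up : Cplx X ⊆ Icc α ω₁ := fun γ hγ => ⟨not_lt.1 (hm γ hγ), compl_le hγ⟩
  refine ⟨α, ω₁, subset_antisymm up fun γ hγ => ?_⟩
  rcases hγ.2.eq_or_lt with rfl | hlt
  · exact h1
  have key : ∀ δ Z, (∃ B, FB c.Y δ B ∧ range c.e ⊆ B ∧ Disjoint B Z) ↔ Sep c.e δ univ Z :=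
    fun δ Z => exists_congr fun B => and_congr_right fun _ => and_congr
      ⟨fun h x _ => h (mem_range_self x), fun h => range_subset_iff.2 fun x => h x trivial⟩
      disjoint_right
  obtain ⟨Z, hZ, β, -, h, hn⟩ := htop h1 γ hlt
  obtain ⟨b, hb, -⟩ := att_of_mem hα (hγ.1.trans_lt hlt)
  exact (step_down hK hiso (hb.mono hγ.1) (discrete_closure hc) β univ Z hZ ((key β Z).1 h)
    fun t => hn ((key γ Z).2 t)).mem hlt

end Pool.Agent.Results.MP_2e2931_gt.AdInterval
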