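import Pool.Agent.Mg.F2e2931a.G3d6fde

open Set Ordinal Pool.Agent.MP_2e2931_gt

universe u

namespace Pool.Agent.Results.MP_2e2931_gt.OddStep

theorem result (X : Type u) [TopologicalSpace X]
    (K : Set X) (hK : IsCompact K) (hiso : ∀ x ∉ K, IsOpen {x})
    (α γ : Ordinal.{0}) (hα : α ∈ Cplx X) (hle : α ≤ γ) (heven : ¬ OddOrd γ)
    (h : γ + 1 ∈ Cplx X) : γ ∈ Cplx X :=
  odd_step hK hiso hα hle heven h

end Pool.Agent.Results.MP_2e2931_gt.OddStep
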