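import Pool.Agent.Mg.F2e2931a.G7e16e5

open Set Ordinal Pool.Agent.MP_2e2931_gt

namespace Pool.Agent.Results.MP_2e2931_gt.ZfcGap

theorem result : ∃ (X : Type) (_ : TopologicalSpace X), T35Space X ∧ KAnalytic X ∧
    2 ∈ Cplx X ∧ 3 ∉ Cplx X ∧ ∃ β ∈ Cplx X, 3 < β ∧ β ≤ ω₁ :=
  ⟨Z3.XX, inferInstance, Z3.final⟩

end Pool.Agent.Results.MP_2e2931_gt.ZfcGap
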